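import Pool.Agent.Helper81.PathNPFinal

/-!
Q1 of MP_9bd22a_lc: REPEXT(PATH, BOTH) is NP-complete.
-/

namespace Pool.Agent.Results.MP_9bd22a_lc.PathExtNPComplete

open Pool.Agent.Helper81.CC Pool.Agent.Helper81.PathExt

/-- Partial representation extension for path graphs, type BOTH, is NP-complete. -/
theorem result : (Problem.of {x : RepInput // x.Valid} fun x => x.1.Extends).NPComplete :=
  final_npComplete

end Pool.Agent.Results.MP_9bd22a_lc.PathExtNPComplete
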